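import Mathlib
import Pool.Agent.H964.LF.Stm

/-! Project LF: the maximum is not too small. -/

set_option autoImplicit false

namespace Pool.Agent.H59.LF

open Pool.Agent.H964.LF
open MeasureTheory Filter Topology
open scoped ENNReal

/-! ### The measure -/

/-- the pinned Lipschitz functions -/
def SL {d n : ℕ} (p : Tor d n) : Set (Tor d n → ℝ) := {ψ | Lip ψ ∧ |ψ p| ≤ 1 / 2}

lemma meas_SL {d n : ℕ} (p : Tor d n) : MeasurableSet (SL p) := by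
  refine IsClosed.measurableSet ?_
  have h1 : SL p = (⋂ x : Tor d n, ⋂ i : Fin d, {ψ : Tor d n → ℝ | |ψ (x + Pi.single i 1) - ψ x| ≤ 1}) ∩
      {ψ : Tor d n → ℝ | |ψ p| ≤ 1 / 2} := by
    ext ψ
    simp only [SL, Lip, Set.mem_inter_iff, Set.mem_iInter, Set.mem_ofPred_eq]
  rw [h1]
  refine IsClosed.inter (isClosed_iInter fun x => isClosed_iInter fun i => ?_) ?_
  · exact isClosed_le (by fun_prop) continuous_const
  · exact isClosed_le (by fun_prop) continuous_const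

lemma vl_eq {d n : ℕ} (p : Tor d n) (E : Set (Tor d n → ℝ)) :
    vl p E = (volume.restrict (SL p)) E := by
  rw [Measure.restrict_apply' (meas_SL p)]
  unfold vl
  refine congrArg _ (Set.ext fun ψ => ?_)
  constructor
  · rintro ⟨h1, h2, h3⟩
    exact ⟨h3, h1, h2⟩
  · rintro ⟨h3, h1, h2⟩
    exact ⟨h1, h2, h3⟩

lemma vl_mono {d n : ℕ} (p : Tor d n) {E F : Set (Tor d n → ℝ)}
    (h : ∀ ψ, Lip ψ → |ψ p| ≤ 1 / 2 → ψ ∈ E → ψ ∈ F) : vl p E ≤ vl p F :=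
  measure_mono fun ψ hψ => ⟨hψ.1, hψ.2.1, h ψ hψ.1 hψ.2.1 hψ.2.2⟩

/-- symmetry -/
lemma vl_neg {d n : ℕ} (p : Tor d n) (E : Set (Tor d n → ℝ)) :
    vl p {ψ | -ψ ∈ E} = vl p E := by
  unfold vl
  rw [← Measure.measure_preimage_neg volume {ψ : Tor d n → ℝ | Lip ψ ∧ |ψ p| ≤ 1 / 2 ∧ ψ ∈ E}]
  refine congrArg _ (Set.ext fun ψ => ?_)
  have h1 : Lip (-ψ) ↔ Lip ψ := by
    unfold Lip
    refine forall_congr' fun x => forall_congr' fun i => ?_
    rw [Pi.neg_apply, Pi.neg_apply, ← abs_neg, neg_sub, sub_neg_eq_add, neg_add_eq_sub]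
  constructor
  · rintro ⟨h2, h3, h4⟩
    exact ⟨h1.2 h2, by rwa [Pi.neg_apply, abs_neg], h4⟩
  · rintro ⟨h2, h3, h4⟩
    exact ⟨h1.1 h2, by rwa [Pi.neg_apply, abs_neg] at h3, h4⟩

/-! ### The centres -/

/-- the centres of the balls -/
def cen (d n ρ k : ℕ) : Tor d n := fun _ => (((2 * ρ + 2) * k : ℕ) : ZMod (2 * n + 2))

/-- the set of the centres -/
def TT (d n ρ M : ℕ) : Finset (Tor d n) := (Finset.Icc 1 M).image (cen d n ρ)

lemma abs_le_l1 {d : ℕ} (z : Fin d → ℤ) (i : Fin d) : |z i| ≤ l1 z :=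
  Finset.single_le_sum (f := fun i => |z i|) (fun _ _ => abs_nonneg _) (Finset.mem_univ i)

lemma l1_zero {d : ℕ} : l1 (0 : Fin d → ℤ) = 0 := by
  unfold l1
  refine Finset.sum_eq_zero fun i _ => ?_
  rw [Pi.zero_apply, abs_zero]

lemma zt_zero {d n : ℕ} : zt n (0 : Fin d → ℤ) = 0 := by
  funext i
  simp [zt]

lemma abs_aux {N D k k' M a a' r : ℤ} (hD : D = 2 * r + 2) (hN : D * (M + 1) ≤ N) (hk1 : 1 ≤ k) (hkM : k ≤ M)
    (hk1' : 1 ≤ k') (hkM' : k' ≤ M) (ha : |a| ≤ r) (ha' : |a'| ≤ r) (h : N ∣ D * k' + a' - (D * k + a)) :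
    k = k' := by
  rw [abs_le] at ha ha'
  have hr : 0 ≤ r := by linarith
  have hD0 : 0 < D := by linarith
  have h1 : D * (k' - k) ≤ D * (M - 1) := mul_le_mul_of_nonneg_left (by linarith) hD0.le
  have h2 : D * (k - k') ≤ D * (M - 1) := mul_le_mul_of_nonneg_left (by linarith) hD0.le
  have h3 : D * k' + a' - (D * k + a) = 0 := by
    refine Int.eq_zero_of_abs_lt_dvd h ?_
    rw [abs_lt]
    constructor <;> nlinarith
  by_contra hne
  rcases lt_or_gt_of_ne hne with h4 | h4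
  · have h5 : D * 1 ≤ D * (k' - k) := mul_le_mul_of_nonneg_left (by linarith) hD0.le
    nlinarith
  · have h5 : D * 1 ≤ D * (k - k') := mul_le_mul_of_nonneg_left (by linarith) hD0.le
    nlinarith

/-- the key fact: different centres have disjoint balls -/
lemma cen_disj {d n ρ M k k' : ℕ} (hd : 1 ≤ d) (hM : (ρ + 1) * (M + 1) ≤ n + 1) (hk : k ∈ Finset.Icc 1 M)
    (hk' : k' ∈ Finset.Icc 1 M) {z z' : Fin d → ℤ} (hz : l1 z ≤ ρ) (hz' : l1 z' ≤ ρ)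
    (h : cen d n ρ k + zt n z = cen d n ρ k' + zt n z') : k = k' := by
  rw [Finset.mem_Icc] at hk hk'
  have h1 := congrFun h ⟨0, hd⟩
  have h2 : |z ⟨0, hd⟩| ≤ ρ := (abs_le_l1 z _).trans hz
  have h3 : |z' ⟨0, hd⟩| ≤ ρ := (abs_le_l1 z' _).trans hz'
  have h4 : (((2 * (ρ : ℤ) + 2) * k + z ⟨0, hd⟩ : ℤ) : ZMod (2 * n + 2)) =
      (((2 * (ρ : ℤ) + 2) * k' + z' ⟨0, hd⟩ : ℤ) : ZMod (2 * n + 2)) := by
    have h5 : (cen d n ρ k + zt n z) ⟨0, hd⟩ = (((2 * (ρ : ℤ) + 2) * k + z ⟨0, hd⟩ : ℤ) : ZMod (2 * n + 2)) := by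
      simp only [Pi.add_apply, cen, zt]
      push_cast
      ring
    have h6 : (cen d n ρ k' + zt n z') ⟨0, hd⟩ = (((2 * (ρ : ℤ) + 2) * k' + z' ⟨0, hd⟩ : ℤ) : ZMod (2 * n + 2)) := by
      simp only [Pi.add_apply, cen, zt]
      push_cast
      ring
    rw [← h5, ← h6]
    exact h1
  rw [ZMod.intCast_eq_intCast_iff_dvd_sub] at h4
  have h7 : ((ρ : ℤ) + 1) * (M + 1) ≤ n + 1 := by exact_mod_cast hM
  have h8 : (k : ℤ) = k' := abs_aux (N := ((2 * n + 2 : ℕ) : ℤ)) (D := 2 * (ρ : ℤ) + 2) (M := M) (r := ρ) rfl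
    (by push_cast; linarith) (by exact_mod_cast hk.1) (by exact_mod_cast hk.2) (by exact_mod_cast hk'.1)
    (by exact_mod_cast hk'.2) h2 h3 h4
  exact_mod_cast h8

lemma cen_ne {d n ρ M k : ℕ} (hd : 1 ≤ d) (hM : (ρ + 1) * (M + 1) ≤ n + 1) (hk : k ∈ Finset.Icc 1 M)
    {z : Fin d → ℤ} (hz : l1 z < ρ) : cen d n ρ k + zt n z ≠ 0 := by
  intro h
  rw [Finset.mem_Icc] at hk
  have h1 := congrFun h ⟨0, hd⟩
  have h2 : |z ⟨0, hd⟩| ≤ ρ := (abs_le_l1 z _).trans hz.le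
  have h5 : (cen d n ρ k + zt n z) ⟨0, hd⟩ = (((2 * (ρ : ℤ) + 2) * k + z ⟨0, hd⟩ : ℤ) : ZMod (2 * n + 2)) := by
    simp only [Pi.add_apply, cen, zt]
    push_cast
    ring
  rw [h5, Pi.zero_apply, ZMod.intCast_zmod_eq_zero_iff_dvd] at h1
  have h7 : ((ρ : ℤ) + 1) * (M + 1) ≤ n + 1 := by exact_mod_cast hM
  have hk1 : (1 : ℤ) ≤ k := by exact_mod_cast hk.1
  have hkM : (k : ℤ) ≤ M := by exact_mod_cast hk.2
  rw [abs_le] at h2
  have hr : (0 : ℤ) ≤ ρ := Int.natCast_nonneg ρ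
  have h8 : (2 * (ρ : ℤ) + 2) * 1 ≤ (2 * (ρ : ℤ) + 2) * k := mul_le_mul_of_nonneg_left hk1 (by linarith)
  have h9 : (2 * (ρ : ℤ) + 2) * k ≤ (2 * (ρ : ℤ) + 2) * M := mul_le_mul_of_nonneg_left hkM (by linarith)
  have h10 : (2 * (ρ : ℤ) + 2) * k + z ⟨0, hd⟩ = 0 := by
    refine Int.eq_zero_of_abs_lt_dvd h1 ?_
    rw [abs_lt]
    push_cast
    constructor <;> nlinarith
  linarith

lemma card_TT {d n ρ M : ℕ} (hd : 1 ≤ d) (hM : (ρ + 1) * (M + 1) ≤ n + 1) : (TT d n ρ M).card = M := by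
  unfold TT
  rw [Finset.card_image_of_injOn, Nat.card_Icc, Nat.add_sub_cancel]
  intro k hk k' hk' h
  refine cen_disj (z := 0) (z' := 0) hd hM (Finset.mem_coe.1 hk) (Finset.mem_coe.1 hk')
    (by rw [l1_zero]; exact Int.natCast_nonneg ρ) (by rw [l1_zero]; exact Int.natCast_nonneg ρ) ?_
  have h' : cen d n ρ k = cen d n ρ k' := h
  rw [h']

/-! ### Bad spheres -/

/-- the box of the integer vectors -/
noncomputable def Zr (d ρ : ℕ) : Finset (Fin d → ℤ) := Fintype.piFinset fun _ => Finset.Icc (-(ρ : ℤ)) ρ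

lemma card_Zr (d ρ : ℕ) : (Zr d ρ).card = (2 * ρ + 1) ^ d := by
  unfold Zr
  rw [Fintype.card_piFinset_const, Int.card_Icc]
  congr 1
  omega

lemma mem_Zr {d ρ : ℕ} {z : Fin d → ℤ} (h : l1 z = ρ) : z ∈ Zr d ρ := by
  unfold Zr
  rw [Fintype.mem_piFinset]
  intro i
  rw [Finset.mem_Icc, ← abs_le]
  exact (abs_le_l1 z i).trans h.le

/-- the sphere around `c` is bad -/
def Bc {d n : ℕ} (ρ : ℕ) (b : ℝ) (c : Tor d n) : Set (Tor d n → ℝ) :=
  ⋃ z ∈ Zr d ρ, {ψ : Tor d n → ℝ | ψ (c + zt n z) < b}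

lemma mem_Bc {d n ρ : ℕ} {b : ℝ} {c : Tor d n} {ψ : Tor d n → ℝ} {z : Fin d → ℤ} (hz : l1 z = ρ)
    (h : ψ (c + zt n z) < b) : ψ ∈ Bc ρ b c := by
  unfold Bc
  rw [Set.mem_iUnion₂]
  exact ⟨z, mem_Zr hz, h⟩

lemma meas_Bc {d n : ℕ} (ρ : ℕ) (b : ℝ) (c : Tor d n) : MeasurableSet (Bc ρ b c) :=
  Finset.measurableSet_biUnion _ fun _ _ => measurableSet_lt (measurable_pi_apply _) measurable_const

lemma tail_site {d n : ℕ} {κ t : ℝ} (h : ∀ v : Tor d n, vl 0 {ψ : Tor d n → ℝ | t ≤ ψ v - ψ 0} ≤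
    ENNReal.ofReal (Real.exp (-(κ * t ^ d))) * vl (0 : Tor d n) Set.univ) (v : Tor d n) :
    vl 0 {ψ : Tor d n → ℝ | ψ v < -t - 1 / 2} ≤
      ENNReal.ofReal (Real.exp (-(κ * t ^ d))) * vl (0 : Tor d n) Set.univ := by
  refine le_trans ?_ (h v)
  rw [← vl_neg 0 {ψ : Tor d n → ℝ | t ≤ ψ v - ψ 0}]
  refine vl_mono 0 fun ψ _ h1 h2 => ?_
  change t ≤ (-ψ) v - (-ψ) 0
  rw [Pi.neg_apply, Pi.neg_apply]
  have h3 := abs_le.1 h1
  have h4 : ψ v < -t - 1 / 2 := h2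
  linarith

lemma Bc_le {d n ρ : ℕ} {κ t : ℝ} (h : ∀ v : Tor d n, vl 0 {ψ : Tor d n → ℝ | t ≤ ψ v - ψ 0} ≤
    ENNReal.ofReal (Real.exp (-(κ * t ^ d))) * vl (0 : Tor d n) Set.univ) (c : Tor d n) :
    vl 0 (Bc ρ (-t - 1 / 2) c) ≤
      (((2 * ρ + 1) ^ d : ℕ) : ℝ≥0∞) * (ENNReal.ofReal (Real.exp (-(κ * t ^ d))) * vl (0 : Tor d n) Set.univ) := by
  rw [vl_eq]
  unfold Bc
  refine (measure_biUnion_finset_le _ _).trans ?_
  refine (Finset.sum_le_card_nsmul _ _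
    (ENNReal.ofReal (Real.exp (-(κ * t ^ d))) * vl (0 : Tor d n) Set.univ) fun z _ => ?_).trans ?_
  · rw [← vl_eq]
    exact tail_site h _
  · rw [card_Zr, nsmul_eq_mul]

open Classical in
lemma markov {d n : ℕ} (ρ : ℕ) (b : ℝ) (T : Finset (Tor d n)) (A : ℝ≥0∞) (hT : 1 ≤ T.card)
    (h : ∀ c ∈ T, vl 0 (Bc ρ b c) ≤ A) :
    vl 0 {ψ : Tor d n → ℝ | T.card ≤ 2 * (T.filter fun c => ψ ∈ Bc ρ b c).card} ≤ 2 * A := by
  obtain ⟨f, hf⟩ : ∃ f : (Tor d n → ℝ) → ℝ≥0∞, f = fun ψ => ∑ c ∈ T, (Bc ρ b c).indicator 1 ψ := ⟨_, rfl⟩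
  have hfc : ∀ ψ, f ψ = ((T.filter fun c => ψ ∈ Bc ρ b c).card : ℝ≥0∞) := by
    intro ψ
    rw [hf, Finset.card_filter, Nat.cast_sum]
    refine Finset.sum_congr rfl fun c _ => ?_
    rw [Set.indicator_apply]
    split_ifs <;> simp
  have hm : Measurable f := by
    rw [hf]
    exact Finset.measurable_sum _ fun c _ => measurable_one.indicator (meas_Bc ρ b c)
  have hi : ∫⁻ ψ, f ψ ∂(volume.restrict (SL (0 : Tor d n))) ≤ T.card * A := by
    rw [hf, lintegral_finsetSum _ fun c _ => measurable_one.indicator (meas_Bc ρ b c)]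
    refine (Finset.sum_le_card_nsmul _ _ A fun c hc => ?_).trans (by rw [nsmul_eq_mul])
    rw [lintegral_indicator_one (meas_Bc ρ b c), ← vl_eq]
    exact h c hc
  have h1 := mul_meas_ge_le_lintegral (μ := volume.restrict (SL (0 : Tor d n))) (hm.const_mul 2) (T.card : ℝ≥0∞)
  rw [lintegral_const_mul 2 hm] at h1
  have h2 : (T.card : ℝ≥0∞) * vl 0 {ψ : Tor d n → ℝ | T.card ≤ 2 * (T.filter fun c => ψ ∈ Bc ρ b c).card} ≤
      T.card * (2 * A) := by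
    have h3 : vl 0 {ψ : Tor d n → ℝ | T.card ≤ 2 * (T.filter fun c => ψ ∈ Bc ρ b c).card} ≤
        (volume.restrict (SL (0 : Tor d n))) {ψ | (T.card : ℝ≥0∞) ≤ 2 * f ψ} := by
      rw [vl_eq]
      refine measure_mono fun ψ hψ => ?_
      have h4 : T.card ≤ 2 * (T.filter fun c => ψ ∈ Bc ρ b c).card := hψ
      change (T.card : ℝ≥0∞) ≤ 2 * f ψ
      rw [hfc]
      exact_mod_cast h4
    refine (mul_le_mul_right h3 _).trans (h1.trans ?_)
    refine (mul_le_mul_right hi 2).trans (le_of_eq ?_)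
    ring
  have hT0 : (T.card : ℝ≥0∞) ≠ 0 := by
    have : T.card ≠ 0 := by omega
    exact_mod_cast this
  exact (ENNReal.mul_le_mul_iff_right hT0 (ENNReal.natCast_ne_top _)).1 h2

open Classical in
/-- the bound for one `n` -/
lemma bound (hLOWA : S_LOWA) {d n ρ M : ℕ} {κ a : ℝ} (hd : 1 ≤ d) (hρ : 1 ≤ ρ) (hM1 : 1 ≤ M)
    (hM : (ρ + 1) * (M + 1) ≤ n + 1)
    (h : ∀ v : Tor d n, vl 0 {ψ : Tor d n → ℝ | (ρ : ℝ) / 8 ≤ ψ v - ψ 0} ≤
      ENNReal.ofReal (Real.exp (-(κ * ((ρ : ℝ) / 8) ^ d))) * vl (0 : Tor d n) Set.univ)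
    (ha : a ≤ 3 * ρ / 8 - 1) :
    vl (0 : Tor d n) {ψ | (⨆ x, ψ x) - ψ 0 < a} ≤
      ENNReal.ofReal (2 * ((2 * (ρ : ℝ) + 1) ^ d * Real.exp (-(κ * ((ρ : ℝ) / 8) ^ d))) +
        (1 - (1 / 4 : ℝ) ^ ((2 * ρ + 1) ^ d)) ^ ((M + 1) / 2)) * vl (0 : Tor d n) Set.univ := by
  have hcard := card_TT (d := d) hd hM
  have hρn : 2 * ρ + 2 ≤ 2 * n + 2 := by nlinarith
  have h1 := hLOWA d n 0 (TT d n ρ M) ρ ((M + 1) / 2) (-((ρ : ℝ) / 8) - 1 / 2) hd hρ hρn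
    (by
      intro c hc c' hc' hne z z' hz hz' he
      unfold TT at hc hc'
      rw [Finset.mem_image] at hc hc'
      obtain ⟨k, hk, rfl⟩ := hc
      obtain ⟨k', hk', rfl⟩ := hc'
      exact hne (by rw [cen_disj hd hM hk hk' hz hz' he]))
    (by
      intro c hc z hz
      unfold TT at hc
      rw [Finset.mem_image] at hc
      obtain ⟨k, hk, rfl⟩ := hc
      exact cen_ne hd hM hk hz)
  have h2 := markov ρ (-((ρ : ℝ) / 8) - 1 / 2) (TT d n ρ M) _ (by rw [hcard]; exact hM1)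
    fun c _ => Bc_le (ρ := ρ) h c
  have h3 : vl (0 : Tor d n) {ψ | (⨆ x, ψ x) - ψ 0 < a} ≤
      vl 0 ({ψ : Tor d n → ℝ | (TT d n ρ M).card ≤
          2 * ((TT d n ρ M).filter fun c => ψ ∈ Bc ρ (-((ρ : ℝ) / 8) - 1 / 2) c).card} ∪
        {ψ | (M + 1) / 2 ≤ ((TT d n ρ M).filter fun c => ∀ z : Fin d → ℤ, l1 z = ρ →
          -((ρ : ℝ) / 8) - 1 / 2 ≤ ψ (c + zt n z)).card ∧
          ∀ c ∈ TT d n ρ M, ψ c < -((ρ : ℝ) / 8) - 1 / 2 + ρ / 2}) := by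
    refine vl_mono 0 fun ψ _ hp hψ => ?_
    have hψ' : (⨆ x, ψ x) - ψ 0 < a := hψ
    have hp' := abs_le.1 hp
    by_cases hg : (M + 1) / 2 ≤ ((TT d n ρ M).filter fun c => ∀ z : Fin d → ℤ, l1 z = ρ →
          -((ρ : ℝ) / 8) - 1 / 2 ≤ ψ (c + zt n z)).card
    · right
      refine ⟨hg, fun c _ => ?_⟩
      have h4 : ψ c ≤ ⨆ x, ψ x := le_ciSup (Set.finite_range ψ).bddAbove c
      linarith
    · left
      change (TT d n ρ M).card ≤ _
      have h4 := Finset.card_filter_add_card_filter_not (s := TT d n ρ M) fun c => ∀ z : Fin d → ℤ, l1 z = ρ →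
          -((ρ : ℝ) / 8) - 1 / 2 ≤ ψ (c + zt n z)
      have h5 : ((TT d n ρ M).filter fun c => ¬ ∀ z : Fin d → ℤ, l1 z = ρ →
          -((ρ : ℝ) / 8) - 1 / 2 ≤ ψ (c + zt n z)).card ≤
          ((TT d n ρ M).filter fun c => ψ ∈ Bc ρ (-((ρ : ℝ) / 8) - 1 / 2) c).card := by
        refine Finset.card_le_card fun c hc => ?_
        rw [Finset.mem_filter] at hc ⊢
        refine ⟨hc.1, ?_⟩
        have h6 := hc.2
        push Not at h6
        obtain ⟨z, hz, h7⟩ := h6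
        exact mem_Bc hz h7
      rw [hcard] at h4 ⊢
      omega
  refine h3.trans ?_
  rw [vl_eq]
  refine (measure_union_le _ _).trans ?_
  rw [← vl_eq, ← vl_eq]
  refine (add_le_add h2 h1).trans (le_of_eq ?_)
  have hq : (0 : ℝ) ≤ (1 - (1 / 4 : ℝ) ^ ((2 * ρ + 1) ^ d)) ^ ((M + 1) / 2) := by
    refine pow_nonneg ?_ _
    have := pow_le_one₀ (n := (2 * ρ + 1) ^ d) (show (0 : ℝ) ≤ 1 / 4 by norm_num) (by norm_num)
    linarith
  rw [ENNReal.ofReal_add (by positivity) hq, add_mul, ENNReal.ofReal_mul (by norm_num),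
    ENNReal.ofReal_mul (by positivity)]
  have e1 : ENNReal.ofReal ((2 * (ρ : ℝ) + 1) ^ d) = (((2 * ρ + 1) ^ d : ℕ) : ℝ≥0∞) := by
    rw [← ENNReal.ofReal_natCast]
    push_cast
    rfl
  have e2 : ENNReal.ofReal 2 = 2 := by norm_num
  rw [e1, e2]
  ring

/-! ### The limit -/

lemma lim_aux (d : ℕ) (hd : 1 ≤ d) {κ : ℝ} (hκ : 0 < κ) :
    Tendsto (fun r : ℕ => 2 * ((2 * (r : ℝ) + 1) ^ d * Real.exp (-(κ * ((r : ℝ) / 8) ^ d)))) atTop (𝓝 0) := by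
  have h1 : Tendsto (fun x : ℝ => x ^ d * Real.exp (-x)) atTop (𝓝 0) :=
    Real.tendsto_pow_mul_exp_neg_atTop_nhds_zero d
  have h2 : Tendsto (fun r : ℕ => κ / 8 * (r : ℝ)) atTop atTop :=
    (tendsto_natCast_atTop_atTop (R := ℝ)).const_mul_atTop (by positivity)
  have h3 := (h1.comp h2).const_mul (2 * (24 / κ) ^ d)
  rw [mul_zero] at h3
  refine squeeze_zero' ?_ ?_ h3
  · exact Eventually.of_forall fun r => by positivity
  · filter_upwards [eventually_ge_atTop 8] with r hr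
    have hr8 : (8 : ℝ) ≤ r := by exact_mod_cast hr
    have e1 : (2 * (r : ℝ) + 1) ^ d ≤ (3 * r) ^ d := pow_le_pow_left₀ (by positivity) (by linarith) d
    have e2 : (3 * (r : ℝ)) ^ d = (24 / κ) ^ d * (κ / 8 * r) ^ d := by
      rw [← mul_pow]
      congr 1
      field_simp
      ring
    have e3 : (r : ℝ) / 8 ≤ ((r : ℝ) / 8) ^ d := le_self_pow₀ (by linarith) (by omega)
    have e4 : Real.exp (-(κ * ((r : ℝ) / 8) ^ d)) ≤ Real.exp (-(κ / 8 * r)) :=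
      Real.exp_le_exp.2 (by nlinarith)
    simp only [Function.comp_apply]
    calc 2 * ((2 * (r : ℝ) + 1) ^ d * Real.exp (-(κ * ((r : ℝ) / 8) ^ d)))
        ≤ 2 * ((3 * r) ^ d * Real.exp (-(κ / 8 * r))) :=
          mul_le_mul_of_nonneg_left (mul_le_mul e1 e4 (Real.exp_nonneg _) (by positivity)) (by norm_num)
      _ = 2 * (24 / κ) ^ d * ((κ / 8 * r) ^ d * Real.exp (-(κ / 8 * r))) := by
          rw [e2]
          ring

/-- the scale -/
noncomputable def Ln (d n : ℕ) : ℝ := Real.log ((n : ℝ) + 1) ^ ((1 : ℝ) / d)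

/-- the radius -/
noncomputable def rn (d n : ℕ) : ℕ := ⌊Ln d n / 6⌋₊

/-- the fourth root -/
noncomputable def yn (n : ℕ) : ℝ := ((n : ℝ) + 1) ^ (1 / 4 : ℝ)

lemma n1_t : Tendsto (fun n : ℕ => (n : ℝ) + 1) atTop atTop :=
  tendsto_atTop_add_const_right _ 1 tendsto_natCast_atTop_atTop

lemma Ln_t (d : ℕ) (hd : 1 ≤ d) : Tendsto (Ln d) atTop atTop := by
  have h1 : (0 : ℝ) < 1 / d := by
    have : (0 : ℝ) < d := by exact_mod_cast hd
    positivity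
  exact (tendsto_rpow_atTop h1).comp (Real.tendsto_log_atTop.comp n1_t)

lemma yn_t : Tendsto yn atTop atTop :=
  (tendsto_rpow_atTop (by norm_num)).comp n1_t

lemma rn_t (d : ℕ) (hd : 1 ≤ d) : Tendsto (rn d) atTop atTop :=
  tendsto_nat_floor_atTop.comp ((Ln_t d hd).atTop_div_const (by norm_num))

lemma log_yn : ∀ᶠ n : ℕ in atTop, Real.log ((n : ℝ) + 1) ≤ yn n := by
  have h1 := (isLittleO_log_rpow_atTop (show (0 : ℝ) < 1 / 4 by norm_num)).bound (show (0 : ℝ) < 1 by norm_num)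
  filter_upwards [n1_t.eventually h1] with n h2
  rw [one_mul, Real.norm_eq_abs, Real.norm_eq_abs] at h2
  have h3 : (0 : ℝ) ≤ ((n : ℝ) + 1) ^ (1 / 4 : ℝ) := by positivity
  rw [abs_of_nonneg h3] at h2
  exact (le_abs_self _).trans h2

lemma params (d : ℕ) (hd : 3 ≤ d) : ∀ᶠ n : ℕ in atTop, 1 ≤ rn d n ∧ 1 ≤ Nat.sqrt (n + 1) ∧
    (rn d n + 1) * (Nat.sqrt (n + 1) + 1) ≤ n + 1 ∧ 1 / 32 * Ln d n ≤ 3 * rn d n / 8 - 1 ∧
    (1 - (1 / 4 : ℝ) ^ ((2 * rn d n + 1) ^ d)) ^ ((Nat.sqrt (n + 1) + 1) / 2) ≤ Real.exp (-(yn n / 4)) := by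
  filter_upwards [(Ln_t d (by omega)).eventually_ge_atTop 44, yn_t.eventually_ge_atTop 2, log_yn,
    (rn_t d (by omega)).eventually_ge_atTop 1] with n hL hy hly hr
  have hn0 : (0 : ℝ) < (n : ℝ) + 1 := by positivity
  have hlog0 : 0 ≤ Real.log ((n : ℝ) + 1) := Real.log_nonneg (by linarith [Nat.cast_nonneg (α := ℝ) n])
  have hLd : Ln d n ^ d = Real.log ((n : ℝ) + 1) := by
    unfold Ln
    rw [one_div]
    exact Real.rpow_inv_natCast_pow hlog0 (by omega)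
  have hLL : Ln d n ≤ Ln d n ^ d := le_self_pow₀ (by linarith) (by omega)
  have hy4 : yn n ^ 4 = (n : ℝ) + 1 := by
    unfold yn
    rw [← Real.rpow_natCast, ← Real.rpow_mul hn0.le]
    norm_num
  have hyexp : yn n = Real.exp (Real.log ((n : ℝ) + 1) / 4) := by
    unfold yn
    rw [Real.rpow_def_of_pos hn0]
    congr 1
    ring
  have hy0 : 0 < yn n := by linarith
  obtain ⟨L, hLe⟩ : ∃ L, L = Ln d n := ⟨_, rfl⟩
  obtain ⟨y, hye⟩ : ∃ y, y = yn n := ⟨_, rfl⟩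
  obtain ⟨r, hre⟩ : ∃ r, r = rn d n := ⟨_, rfl⟩
  obtain ⟨M, hMe⟩ : ∃ M, M = Nat.sqrt (n + 1) := ⟨_, rfl⟩
  have hr1 : (r : ℝ) ≤ L / 6 := by
    rw [hre, hLe]
    exact Nat.floor_le (by linarith)
  have hr2 : L / 6 < (r : ℝ) + 1 := by
    rw [hre, hLe]
    exact Nat.lt_floor_add_one _
  have hM1 : (M : ℝ) * M ≤ (n : ℝ) + 1 := by
    have : M * M ≤ n + 1 := by
      rw [hMe]
      exact Nat.sqrt_le (n + 1)
    exact_mod_cast this
  have hM2 : (n : ℝ) + 1 < ((M : ℝ) + 1) * (M + 1) := by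
    have : n + 1 < (M + 1) * (M + 1) := by
      rw [hMe]
      exact Nat.lt_succ_sqrt (n + 1)
    exact_mod_cast this
  rw [← hLe] at hL hLd hLL
  rw [← hye] at hy hly hy4 hyexp hy0
  rw [← hre] at hr
  rw [← hLe, ← hye, ← hre, ← hMe]
  have hM0 : (0 : ℝ) ≤ M := Nat.cast_nonneg _
  have hMy : (M : ℝ) ≤ y ^ 2 := by
    by_contra hc
    push Not at hc
    have h1 : y ^ 2 * y ^ 2 < (M : ℝ) * M := mul_lt_mul'' hc hc (by positivity) (by positivity)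
    nlinarith
  have hyM : y ^ 2 < (M : ℝ) + 1 := by
    by_contra hc
    push Not at hc
    have h1 : ((M : ℝ) + 1) * (M + 1) ≤ y ^ 2 * y ^ 2 := mul_le_mul hc hc (by positivity) (by positivity)
    nlinarith
  refine ⟨hr, ?_, ?_, ?_, ?_⟩
  · have h1 : (0 : ℝ) < M := by nlinarith
    have h2 : 0 < M := by exact_mod_cast h1
    omega
  · have h1 : (r : ℝ) + 1 ≤ y := by linarith
    have h2 : ((r : ℝ) + 1) * (M + 1) ≤ y * (y ^ 2 + 1) :=
      mul_le_mul h1 (by linarith) (by positivity) (by positivity)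
    have h3 : y * (y ^ 2 + 1) ≤ y ^ 4 := by
      have h4 : y ^ 4 - y * (y ^ 2 + 1) = y * (y ^ 2 * (y - 1) - 1) := by ring
      have h5 : 4 * 1 ≤ y ^ 2 * (y - 1) := mul_le_mul (by nlinarith) (by linarith) (by norm_num) (by positivity)
      have h6 : 0 ≤ y * (y ^ 2 * (y - 1) - 1) := mul_nonneg hy0.le (by linarith)
      linarith
    have h4 : ((r : ℝ) + 1) * (M + 1) ≤ (n : ℝ) + 1 := by linarith
    exact_mod_cast h4
  · linarith
  · obtain ⟨Q, hQ⟩ : ∃ Q, Q = (2 * r + 1) ^ d := ⟨_, rfl⟩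
    have hQ1 : (Q : ℝ) ≤ Real.log ((n : ℝ) + 1) / 8 := by
      rw [hQ]
      push_cast
      have h1 : (2 * (r : ℝ) + 1) ^ d ≤ (L / 2) ^ d := pow_le_pow_left₀ (by positivity) (by linarith) d
      have h2 : (2 : ℝ) ^ 3 ≤ 2 ^ d := pow_le_pow_right₀ (by norm_num) hd
      refine h1.trans ?_
      rw [div_pow, hLd]
      exact div_le_div_of_nonneg_left hlog0 (by norm_num) (by linarith)
    have hq : y⁻¹ ≤ (1 / 4 : ℝ) ^ Q := by
      have h1 : (1 / 4 : ℝ) = Real.exp (-Real.log 4) := by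
        rw [Real.exp_neg, Real.exp_log (by norm_num), one_div]
      have h2 : Real.log 4 ≤ 2 := by
        have h3 : Real.log 4 = 2 * Real.log 2 := by
          rw [show (4 : ℝ) = 2 ^ 2 by norm_num, Real.log_pow]
          norm_num
        linarith [Real.log_two_lt_d9]
      rw [h1, ← Real.exp_nat_mul, hyexp, ← Real.exp_neg]
      refine Real.exp_le_exp.2 ?_
      have h3 : (Q : ℝ) * Real.log 4 ≤ Real.log ((n : ℝ) + 1) / 8 * 2 :=
        mul_le_mul hQ1 h2 (Real.log_nonneg (by norm_num)) (by positivity)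
      linarith
    rw [← hQ]
    have hq1 : (1 / 4 : ℝ) ^ Q ≤ 1 := pow_le_one₀ (by norm_num) (by norm_num)
    obtain ⟨q, hqe⟩ : ∃ q : ℝ, q = (1 / 4 : ℝ) ^ Q := ⟨_, rfl⟩
    rw [← hqe] at hq hq1 ⊢
    obtain ⟨m, hme⟩ : ∃ m, m = (M + 1) / 2 := ⟨_, rfl⟩
    rw [← hme]
    have hm : (M : ℝ) ≤ 2 * m := by
      have : M ≤ 2 * m := by omega
      exact_mod_cast this
    calc (1 - q) ^ m ≤ Real.exp (-q) ^ m := pow_le_pow_left₀ (by linarith) (Real.one_sub_le_exp_neg q) m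
      _ = Real.exp (-(q * m)) := by
          rw [← Real.exp_nat_mul]
          congr 1
          ring
      _ ≤ Real.exp (-(y / 4)) := by
          refine Real.exp_le_exp.2 ?_
          have h1 : y⁻¹ * ((y ^ 2 - 1) / 2) ≤ q * m := by
            refine mul_le_mul hq (by linarith) (by nlinarith) (by
              rw [hqe]
              positivity)
          have h2 : y / 4 ≤ y⁻¹ * ((y ^ 2 - 1) / 2) := by
            rw [inv_mul_eq_div, le_div_iff₀ hy0]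
            nlinarith
          linarith

theorem t_LOW : S_TAIL → S_LOWA → S_PIN → S_LOW := by
  intro h1 h2 h3 d hd
  obtain ⟨κ, C, n0, hκ, hC, htail⟩ := h1 d hd
  refine ⟨1 / 32, by norm_num, ?_⟩
  have hl1 := (lim_aux d (by omega) hκ).comp (rn_t d (by omega))
  have hl2 : Tendsto (fun n : ℕ => Real.exp (-(yn n / 4))) atTop (𝓝 0) :=
    Real.tendsto_exp_neg_atTop_nhds_zero.comp (yn_t.atTop_div_const (by norm_num))
  have hlim := hl1.add hl2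
  rw [add_zero] at hlim
  refine squeeze_zero' (Eventually.of_forall fun n => by positivity) ?_ hlim
  filter_upwards [params d hd, eventually_ge_atTop n0, (rn_t d (by omega)).eventually_ge_atTop ⌈8 * C⌉₊]
    with n hp hn hr
  obtain ⟨p1, p2, p3, p4, p5⟩ := hp
  have hCr : C ≤ (rn d n : ℝ) / 8 := by
    have h4 : 8 * C ≤ (⌈8 * C⌉₊ : ℝ) := Nat.le_ceil _
    have h5 : (⌈8 * C⌉₊ : ℝ) ≤ rn d n := by exact_mod_cast hr
    linarith
  have hb := bound h2 (κ := κ) (by omega) p1 p2 p3 (fun v => htail n hn v _ hCr) p4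
  obtain ⟨hV0, hVt⟩ := (h3 d n).2 0
  have hV : 0 < (vl (0 : Tor d n) Set.univ).toReal := ENNReal.toReal_pos hV0 hVt
  have hE := ENNReal.toReal_mono (ENNReal.mul_ne_top ENNReal.ofReal_ne_top hVt) hb
  have hq : (0 : ℝ) ≤ (1 - (1 / 4 : ℝ) ^ ((2 * rn d n + 1) ^ d)) ^ ((Nat.sqrt (n + 1) + 1) / 2) := by
    refine pow_nonneg ?_ _
    have := pow_le_one₀ (n := (2 * rn d n + 1) ^ d) (show (0 : ℝ) ≤ 1 / 4 by norm_num) (by norm_num)
    linarith
  rw [ENNReal.toReal_mul, ENNReal.toReal_ofReal (by positivity)] at hE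
  rw [div_le_iff₀ hV]
  refine hE.trans (mul_le_mul_of_nonneg_right ?_ hV.le)
  simp only [Function.comp_apply]
  linarith

end Pool.Agent.H59.LF
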